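import Pool.Agent.Helper27_BHT.Stmts

set_option autoImplicit false
open Polynomial

namespace BHT.H36

section
variable {E : Type} [Field E] (v : AbsoluteValue E ℝ) (δ : ℝ)

/-- `s` is the Gauss norm with radius `δ` and `n` the largest dominant index. -/
def Dom (G : E[X]) (n : ℕ) (s : ℝ) : Prop :=
  v (G.coeff n) * δ ^ n = s ∧ (∀ k, v (G.coeff k) * δ ^ k ≤ s) ∧
    ∀ k, n < k → v (G.coeff k) * δ ^ k < s

variable {v δ}

theorem Dom.exists (hδ : 0 < δ) {G : E[X]} (hG : G ≠ 0) : ∃ n s, 0 < s ∧ Dom v δ G n s := by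
  classical
  have hne : G.support.Nonempty := by
    rw [Finset.nonempty_iff_ne_empty]
    intro h
    exact hG (Polynomial.support_eq_empty.1 h)
  obtain ⟨k0, hk0, hmax⟩ := G.support.exists_max_image (fun k => v (G.coeff k) * δ ^ k) hne
  set s := v (G.coeff k0) * δ ^ k0 with hs
  have hspos : 0 < s := by
    have h1 : G.coeff k0 ≠ 0 := Polynomial.mem_support_iff.1 hk0
    have h2 : 0 < v (G.coeff k0) := v.pos h1
    positivity
  have hall : ∀ k, v (G.coeff k) * δ ^ k ≤ s := by
    intro k
    by_cases hk : k ∈ G.support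
    · exact hmax k hk
    · rw [Polynomial.notMem_support_iff.1 hk, map_zero, zero_mul]
      exact hspos.le
  set S := G.support.filter (fun k => v (G.coeff k) * δ ^ k = s) with hS
  have hSne : S.Nonempty := ⟨k0, Finset.mem_filter.2 ⟨hk0, rfl⟩⟩
  refine ⟨S.max' hSne, s, hspos, ?_, hall, ?_⟩
  · exact (Finset.mem_filter.1 (S.max'_mem hSne)).2
  · intro k hk
    refine lt_of_le_of_ne (hall k) fun he => ?_
    have hkS : k ∈ S := by
      refine Finset.mem_filter.2 ⟨?_, he⟩
      rw [Polynomial.mem_support_iff]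
      intro h0
      rw [h0, map_zero, zero_mul] at he
      exact hspos.ne he
    exact absurd (S.le_max' k hkS) (not_le.2 hk)

theorem Dom.unique {G : E[X]} {n n' : ℕ} {s s' : ℝ} (h : Dom v δ G n s) (h' : Dom v δ G n' s') :
    n = n' := by
  obtain ⟨h1, h2, h3⟩ := h
  obtain ⟨h1', h2', h3'⟩ := h'
  have e : s = s' := le_antisymm (h1 ▸ h2' n) (h1' ▸ h2 n')
  rcases lt_trichotomy n n' with hl | hl | hl
  · have := h3 n' hl
    rw [h1', e] at this
    exact absurd this (lt_irrefl _)
  · exact hl
  · have := h3' n hl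
    rw [h1, e] at this
    exact absurd this (lt_irrefl _)

theorem v_sum_lt (hv : IsNonarchimedean v) {ι : Type} (S : Finset ι) (g : ι → E) {s : ℝ}
    (hs : 0 < s) (h : ∀ i ∈ S, v (g i) < s) : v (∑ i ∈ S, g i) < s := by
  classical
  induction S using Finset.induction_on with
  | empty => simpa using hs
  | insert a S ha ih =>
    rw [Finset.sum_insert ha]
    refine lt_of_le_of_lt (hv _ _) (max_lt (h a (Finset.mem_insert_self _ _)) (ih fun i hi => ?_))
    exact h i (Finset.mem_insert_of_mem hi)

theorem v_sum_le (hv : IsNonarchimedean v) {ι : Type} (S : Finset ι) (g : ι → E) {s : ℝ}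
    (hs : 0 ≤ s) (h : ∀ i ∈ S, v (g i) ≤ s) : v (∑ i ∈ S, g i) ≤ s := by
  classical
  induction S using Finset.induction_on with
  | empty => simpa using hs
  | insert a S ha ih =>
    rw [Finset.sum_insert ha]
    refine (hv _ _).trans (max_le (h a (Finset.mem_insert_self _ _)) (ih fun i hi => ?_))
    exact h i (Finset.mem_insert_of_mem hi)

theorem v_add_eq (hv : IsNonarchimedean v) {a b : E} (h : v b < v a) : v (a + b) = v a := by
  apply le_antisymm
  · exact (hv a b).trans (max_le le_rfl h.le)
  · have h1 : v a ≤ max (v (a + b)) (v (-b)) := by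
      have := hv (a + b) (-b)
      rwa [add_neg_cancel_right] at this
    rw [v.map_neg] at h1
    rcases le_max_iff.1 h1 with h2 | h2
    · exact h2
    · exact absurd h2 (not_le.2 h)

theorem Dom.mul (hv : IsNonarchimedean v) (hδ : 0 < δ) {G H : E[X]} {n m : ℕ} {s t : ℝ}
    (hs : 0 < s) (ht : 0 < t) (hG : Dom v δ G n s) (hH : Dom v δ H m t) :
    Dom v δ (G * H) (n + m) (s * t) := by
  classical
  obtain ⟨g1, g2, g3⟩ := hG
  obtain ⟨h1, h2, h3⟩ := hH
  -- terms
  have term : ∀ i j : ℕ, v (G.coeff i * H.coeff j) * δ ^ (i + j)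
      = (v (G.coeff i) * δ ^ i) * (v (H.coeff j) * δ ^ j) := by
    intro i j
    rw [map_mul, pow_add]; ring
  have nn : ∀ (F : E[X]) (i : ℕ), 0 ≤ v (F.coeff i) * δ ^ i := fun F i =>
    mul_nonneg (v.nonneg _) (pow_nonneg hδ.le _)
  have tle : ∀ i j : ℕ, v (G.coeff i * H.coeff j) * δ ^ (i + j) ≤ s * t := by
    intro i j
    rw [term]
    exact mul_le_mul (g2 i) (h2 j) (nn _ _) hs.le
  have tlt : ∀ i j : ℕ, (n < i ∨ m < j) → v (G.coeff i * H.coeff j) * δ ^ (i + j) < s * t := by
    intro i j hij
    rw [term]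
    rcases hij with hij | hij
    · calc (v (G.coeff i) * δ ^ i) * (v (H.coeff j) * δ ^ j)
          ≤ (v (G.coeff i) * δ ^ i) * t := mul_le_mul_of_nonneg_left (h2 j) (nn _ _)
        _ < s * t := mul_lt_mul_of_pos_right (g3 i hij) ht
    · calc (v (G.coeff i) * δ ^ i) * (v (H.coeff j) * δ ^ j)
          ≤ s * (v (H.coeff j) * δ ^ j) := mul_le_mul_of_nonneg_right (g2 i) (nn _ _)
        _ < s * t := mul_lt_mul_of_pos_left (h3 j hij) hs
  have key : ∀ (k : ℕ) (a : E), v a * δ ^ k ≤ s * t ↔ v a ≤ s * t / δ ^ k := by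
    intro k a
    rw [le_div_iff₀ (pow_pos hδ k)]
  have key' : ∀ (k : ℕ) (a : E), v a * δ ^ k < s * t ↔ v a < s * t / δ ^ k := by
    intro k a
    rw [lt_div_iff₀ (pow_pos hδ k)]
  have hst : 0 < s * t := mul_pos hs ht
  refine ⟨?_, ?_, ?_⟩
  · rw [Polynomial.coeff_mul]
    have hmem : (n, m) ∈ Finset.HasAntidiagonal.antidiagonal (n + m) :=
      Finset.HasAntidiagonal.mem_antidiagonal.2 rfl
    rw [← Finset.add_sum_erase _ _ hmem]
    have hrest : v (∑ x ∈ (Finset.HasAntidiagonal.antidiagonal (n + m)).erase (n, m),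
        G.coeff x.1 * H.coeff x.2) < s * t / δ ^ (n + m) := by
      apply v_sum_lt hv _ _ (div_pos hst (pow_pos hδ _))
      intro x hx
      rw [Finset.mem_erase, Finset.HasAntidiagonal.mem_antidiagonal] at hx
      rw [← key']
      have hlt : n < x.1 ∨ m < x.2 := by
        by_contra hcon
        push Not at hcon
        apply hx.1
        ext
        · show x.1 = n
          omega
        · show x.2 = m
          omega
      have := tlt x.1 x.2 hlt
      rwa [hx.2] at this
    have hmain : v (G.coeff n * H.coeff m) = s * t / δ ^ (n + m) := by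
      rw [eq_div_iff (pow_pos hδ _).ne', term, g1, h1]
    rw [← hmain] at hrest
    rw [v_add_eq hv hrest, term, g1, h1]
  · intro k
    rw [key, Polynomial.coeff_mul]
    apply v_sum_le hv _ _ (div_pos hst (pow_pos hδ _)).le
    intro x hx
    rw [Finset.HasAntidiagonal.mem_antidiagonal] at hx
    rw [← key]
    have := tle x.1 x.2
    rwa [hx] at this
  · intro k hk
    rw [key', Polynomial.coeff_mul]
    apply v_sum_lt hv _ _ (div_pos hst (pow_pos hδ _))
    intro x hx
    rw [Finset.HasAntidiagonal.mem_antidiagonal] at hx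
    rw [← key']
    have hlt : n < x.1 ∨ m < x.2 := by
      by_contra hcon
      push Not at hcon
      omega
    have := tlt x.1 x.2 hlt
    rwa [hx] at this

theorem Dom.C {c : E} (hc : c ≠ 0) : Dom v δ (Polynomial.C c) 0 (v c) := by
  refine ⟨by simp, fun k => ?_, fun k hk => ?_⟩
  · rcases k with _ | k
    · simp
    · rw [Polynomial.coeff_C_succ, map_zero, zero_mul]; exact v.nonneg _
  · rcases k with _ | k
    · omega
    · rw [Polynomial.coeff_C_succ, map_zero, zero_mul]; exact v.pos hc

/-- `X + C b` -/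
theorem Dom.lin (hδ : 0 < δ) (b : E) :
    ∃ s, 0 < s ∧ Dom v δ (X + Polynomial.C b) (open Classical in if v b ≤ δ then 1 else 0) s := by
  have c0 : (X + Polynomial.C b : E[X]).coeff 0 = b := by simp
  have c1 : (X + Polynomial.C b : E[X]).coeff 1 = 1 := by simp [Polynomial.coeff_C]
  have c2 : ∀ k, (X + Polynomial.C b : E[X]).coeff (k + 2) = 0 := by
    intro k; simp [Polynomial.coeff_C, Polynomial.coeff_X]
  split_ifs with h
  · refine ⟨δ, hδ, ?_, ?_, ?_⟩
    · rw [c1, map_one]; simp
    · intro k
      rcases k with _ | _ | k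
      · rw [c0]; simpa using h
      · rw [c1]; simp
      · rw [c2, map_zero, zero_mul]; exact hδ.le
    · intro k hk
      rcases k with _ | _ | k
      · omega
      · omega
      · rw [c2, map_zero, zero_mul]; exact hδ
  · push Not at h
    refine ⟨v b, hδ.trans h, ?_, ?_, ?_⟩
    · rw [c0]; simp
    · intro k
      rcases k with _ | _ | k
      · rw [c0]; simp
      · rw [c1]; simpa using h.le
      · rw [c2, map_zero, zero_mul]; exact v.nonneg _
    · intro k hk
      rcases k with _ | _ | k
      · omega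
      · rw [c1]; simpa using h
      · rw [c2, map_zero, zero_mul]; exact hδ.trans h

/-- product of linear factors. -/
theorem Dom.prod (hv : IsNonarchimedean v) (hδ : 0 < δ) (ζ : E) (R : Multiset E) :
    ∃ s, 0 < s ∧ Dom v δ (R.map fun α => X + Polynomial.C (ζ - α)).prod
      (open Classical in R.countP fun α => v (α - ζ) ≤ δ) s := by
  classical
  induction R using Multiset.induction_on with
  | empty => exact ⟨1, one_pos, by simpa using Dom.C (v := v) (δ := δ) (one_ne_zero : (1 : E) ≠ 0)⟩
  | cons a R ih =>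
    obtain ⟨s, hs, hD⟩ := ih
    obtain ⟨t, ht, hT⟩ := Dom.lin (v := v) hδ (ζ - a)
    have hsym : v (ζ - a) = v (a - ζ) := v.map_sub _ _
    rw [hsym] at hT
    refine ⟨s * t, mul_pos hs ht, ?_⟩
    have := Dom.mul hv hδ hs ht hD hT
    rw [Multiset.map_cons, Multiset.prod_cons, Multiset.countP_cons, mul_comm (X + _)]
    exact this

end

theorem n1 : N1Stmt := by
  intro E _ v hv u f w c hc huw hf hf0 ζ δ hδ hodd
  by_contra hcon
  push Not at hcon
  -- w ≠ 0
  have hw : w ≠ 0 := by
    rintro rfl
    have h1 : u ^ 2 = C c := by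
      have := huw
      simp at this
      exact sub_eq_zero.1 this
    have hdeg : u.natDegree = 0 := by
      have := congrArg Polynomial.natDegree h1
      rw [Polynomial.natDegree_pow, Polynomial.natDegree_C] at this
      omega
    have hlc : u.leadingCoeff ^ 2 = c := by
      have := congrArg Polynomial.leadingCoeff h1
      rwa [Polynomial.leadingCoeff_pow, Polynomial.leadingCoeff_C] at this
    rw [hdeg] at hcon
    rw [← hlc, map_pow] at hcon
    simp at hcon
  have hu : u ≠ 0 := by
    rintro rfl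
    simp at hcon
    exact absurd hcon (not_lt.2 (v.nonneg c))
  set T : E[X] →ₗ[E] E[X] := Polynomial.taylor ζ with hT
  have hTu : T u ≠ 0 := by
    rw [hT]; exact fun h => hu (Polynomial.taylor_injective ζ (by rw [h, map_zero]))
  have hTw : T w ≠ 0 := by
    rw [hT]; exact fun h => hw (Polynomial.taylor_injective ζ (by rw [h, map_zero]))
  obtain ⟨n, s, hs, hD⟩ := Dom.exists (v := v) hδ hTu
  obtain ⟨n', s', hs', hD'⟩ := Dom.exists (v := v) hδ hTw
  -- f
  obtain ⟨t, ht, hF⟩ := Dom.prod hv hδ ζ f.roots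
  have hfT : T f = C f.leadingCoeff * (f.roots.map fun α => X + C (ζ - α)).prod := by
    conv_lhs => rw [hf.eq_prod_roots]
    rw [hT, Polynomial.taylor_mul, Polynomial.taylor_C]
    congr 1
    have : ∀ R : Multiset E, Polynomial.taylor ζ (R.map fun α => X - C α).prod
        = (R.map fun α => X + C (ζ - α)).prod := by
      intro R
      induction R using Multiset.induction_on with
      | empty => simp
      | cons a R ih =>
        rw [Multiset.map_cons, Multiset.prod_cons, Multiset.map_cons, Multiset.prod_cons,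
          Polynomial.taylor_mul, ih]
        congr 1
        simp [Polynomial.taylor_X, Polynomial.taylor_C]
        ring
    exact this _
  have hlc : f.leadingCoeff ≠ 0 := Polynomial.leadingCoeff_ne_zero.2 hf0
  have hFf := Dom.mul hv hδ (v.pos hlc) ht (Dom.C (v := v) (δ := δ) hlc) hF
  rw [← hfT, zero_add] at hFf
  -- f w²
  have hww := Dom.mul hv hδ hs' hs' hD' hD'
  have hfww := Dom.mul hv hδ (mul_pos (v.pos hlc) ht) (mul_pos hs' hs') hFf hww
  -- u²
  have huu := Dom.mul hv hδ hs hs hD hD
  have hsc : v c < s * s := by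
    have h1 : v u.leadingCoeff * δ ^ u.natDegree ≤ s := by
      have := hD.2.1 u.natDegree
      have e : (T u).coeff u.natDegree = u.leadingCoeff := by
        rw [hT]
        exact Polynomial.coeff_taylor_natDegree (r := ζ) (f := u)
      rwa [e] at this
    have h0 : 0 ≤ v u.leadingCoeff * δ ^ u.natDegree :=
      mul_nonneg (v.nonneg _) (pow_nonneg hδ.le _)
    calc v c < v u.leadingCoeff ^ 2 * δ ^ (2 * u.natDegree) := hcon
      _ = (v u.leadingCoeff * δ ^ u.natDegree) * (v u.leadingCoeff * δ ^ u.natDegree) := by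
          rw [two_mul, pow_add]; ring
      _ ≤ s * s := mul_le_mul h1 h1 h0 hs.le
  have hTeq : T u * T u - C c = T f * (T w * T w) := by
    have := congrArg T huw
    rw [map_sub, hT, Polynomial.taylor_mul, Polynomial.taylor_C, pow_two, pow_two,
      Polynomial.taylor_mul, Polynomial.taylor_mul] at this
    exact this
  -- u² - c has the same dominant index
  have huc : Dom v δ (T u * T u - C c) (n + n) (s * s) := by
    obtain ⟨a1, a2, a3⟩ := huu
    have hk : ∀ k, 0 < k → (T u * T u - C c).coeff k = (T u * T u).coeff k := by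
      intro k hk
      rw [Polynomial.coeff_sub, Polynomial.coeff_C_of_ne_zero hk.ne', sub_zero]
    refine ⟨?_, ?_, ?_⟩
    · rcases Nat.eq_zero_or_pos (n + n) with h0 | h0
      · rw [h0] at a1 ⊢
        simp only [pow_zero, mul_one] at a1 ⊢
        rw [Polynomial.coeff_sub, Polynomial.coeff_C_zero, sub_eq_add_neg]
        rw [v_add_eq hv (by rw [v.map_neg, a1]; exact hsc)]
        exact a1
      · rw [hk _ h0]; exact a1
    · intro k
      rcases Nat.eq_zero_or_pos k with h0 | h0
      · subst h0
        have := a2 0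
        simp only [pow_zero, mul_one] at this ⊢
        rw [Polynomial.coeff_sub, Polynomial.coeff_C_zero, sub_eq_add_neg]
        refine (hv _ _).trans (max_le this ?_)
        rw [v.map_neg]; exact hsc.le
      · rw [hk _ h0]; exact a2 k
    · intro k hlt
      rw [hk k (by omega)]; exact a3 k hlt
  rw [hTeq] at huc
  have hfin := Dom.unique huc hfww
  unfold cnt at hodd
  obtain ⟨q, hq⟩ := hodd
  have e2 : (open Classical in f.roots.countP fun α => v (α - ζ) ≤ δ) = 2 * q + 1 := by
    rw [← hq]
  omega

end BHT.H36
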