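import Pool.Agent.Helper27_BHT.Stmts

set_option autoImplicit false
open Polynomial

namespace BHT.H36

/-- `F` has a continuous `2π`-periodic square root. -/
def SQ (F : ℝ → ℂ) : Prop :=
  ∃ h : ℝ → ℂ, Continuous h ∧ (∀ θ, h (θ + 2 * Real.pi) = h θ) ∧ ∀ θ, h θ ^ 2 = F θ

theorem SQ.mul {F G : ℝ → ℂ} (hF : SQ F) (hG : SQ G) : SQ (fun θ => F θ * G θ) := by
  obtain ⟨a, ha, hap, has⟩ := hF
  obtain ⟨b, hb, hbp, hbs⟩ := hG
  exact ⟨fun θ => a θ * b θ, ha.mul hb, fun θ => by simp only [hap, hbp],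
    fun θ => by simp only [mul_pow, has, hbs]⟩

theorem SQ.of_mul {F G : ℝ → ℂ} (hFG : SQ (fun θ => F θ * G θ)) (hG : SQ G)
    (hne : ∀ θ, G θ ≠ 0) : SQ F := by
  obtain ⟨a, ha, hap, has⟩ := hFG
  obtain ⟨b, hb, hbp, hbs⟩ := hG
  have hb0 : ∀ θ, b θ ≠ 0 := fun θ h => hne θ (by rw [← hbs, h]; simp)
  refine ⟨fun θ => a θ / b θ, ha.div hb hb0, fun θ => by simp only [hap, hbp], fun θ => ?_⟩
  show (a θ / b θ) ^ 2 = F θ
  rw [div_pow, has, hbs, mul_div_cancel_right₀ _ (hne θ)]

theorem SQ.const (c : ℂ) : SQ (fun _ => c) := by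
  obtain ⟨z, hz⟩ := IsAlgClosed.exists_pow_nat_eq c (n := 2) (by norm_num)
  exact ⟨fun _ => z, continuous_const, fun _ => rfl, fun _ => hz⟩

theorem SQ.slit {F : ℝ → ℂ} (hF : Continuous F) (hp : ∀ θ, F (θ + 2 * Real.pi) = F θ)
    (hs : ∀ θ, F θ ∈ Complex.slitPlane) : SQ F := by
  refine ⟨fun θ => Complex.exp (Complex.log (F θ) / 2), ?_, fun θ => by simp only [hp], fun θ => ?_⟩
  · exact Complex.continuous_exp.comp ((hF.clog hs).div_const 2)
  · show Complex.exp (Complex.log (F θ) / 2) ^ 2 = F θ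
    rw [← Complex.exp_nat_mul]
    have : ((2 : ℕ) : ℂ) * (Complex.log (F θ) / 2) = Complex.log (F θ) := by push_cast; ring
    rw [this, Complex.exp_log (Complex.slitPlane_ne_zero (hs θ))]

/-- the unit circle parametrisation. -/
noncomputable def EE (θ : ℝ) : ℂ := Complex.exp (θ * Complex.I)

theorem EE_cont : Continuous EE :=
  Complex.continuous_exp.comp (Complex.continuous_ofReal.mul continuous_const)

theorem EE_per (θ : ℝ) : EE (θ + 2 * Real.pi) = EE θ := by
  unfold EE
  rw [show ((θ + 2 * Real.pi : ℝ) : ℂ) * Complex.I = θ * Complex.I + 2 * Real.pi * Complex.I by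
    push_cast; ring]
  exact Complex.exp_periodic _

theorem EE_ne (θ : ℝ) : EE θ ≠ 0 := Complex.exp_ne_zero _

theorem EE_norm (θ : ℝ) : ‖EE θ‖ = 1 := Complex.norm_exp_ofReal_mul_I θ

theorem slit_of_norm_lt {z : ℂ} (h : ‖z‖ < 1) : 1 - z ∈ Complex.slitPlane := by
  left
  have : z.re ≤ ‖z‖ := Complex.re_le_norm z
  simp only [Complex.sub_re, Complex.one_re]
  linarith

theorem odd_false {k : ℕ} (hk : Odd k) (h : SQ (fun θ => EE θ ^ k)) : False := by
  obtain ⟨h, hc, hp, hs⟩ := h
  set g : ℝ → ℂ := fun θ => Complex.exp (k * θ * Complex.I / 2) with hg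
  have hgc : Continuous g := by
    refine Complex.continuous_exp.comp ?_
    exact ((continuous_const.mul Complex.continuous_ofReal).mul continuous_const).div_const 2
  have hgs : ∀ θ, g θ ^ 2 = EE θ ^ k := by
    intro θ
    rw [hg]
    show Complex.exp (k * θ * Complex.I / 2) ^ 2 = Complex.exp (θ * Complex.I) ^ k
    rw [← Complex.exp_nat_mul, ← Complex.exp_nat_mul]
    congr 1
    push_cast; ring
  have hg0 : ∀ θ, g θ ≠ 0 := fun θ => Complex.exp_ne_zero _
  have key := (isPreconnected_univ (α := ℝ)).eq_or_eq_neg_of_sq_eq (f := h) (g := g)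
    hc.continuousOn hgc.continuousOn (fun θ _ => by
      show (h ^ 2) θ = (g ^ 2) θ
      simp only [Pi.pow_apply, hs, hgs]) (fun {x} _ => hg0 x)
  have hper := hp 0
  rw [zero_add] at hper
  have g0 : g 0 = 1 := by simp [hg]
  have g1 : g (2 * Real.pi) = -1 := by
    obtain ⟨q, rfl⟩ := hk
    show Complex.exp (((2 * q + 1 : ℕ) : ℂ) * ((2 * Real.pi : ℝ) : ℂ) * Complex.I / 2) = -1
    have : ((2 * q + 1 : ℕ) : ℂ) * ((2 * Real.pi : ℝ) : ℂ) * Complex.I / 2
        = q * (2 * Real.pi * Complex.I) + Real.pi * Complex.I := by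
      push_cast; ring
    rw [this, Complex.exp_add, Complex.exp_nat_mul_two_pi_mul_I, Complex.exp_pi_mul_I]
    ring
  rcases key with h1 | h1
  · have a := h1 (Set.mem_univ (0 : ℝ))
    have b := h1 (Set.mem_univ (2 * Real.pi))
    rw [a, b, g0, g1] at hper
    norm_num at hper
  · have a := h1 (Set.mem_univ (0 : ℝ))
    have b := h1 (Set.mem_univ (2 * Real.pi))
    rw [a, b, Pi.neg_apply, Pi.neg_apply, g0, g1] at hper
    norm_num at hper

theorem prod_roots (ζ : ℂ) (ρ₁ ρ₂ ρ : ℝ) (h1 : 0 ≤ ρ₁) (hρ : ρ ∈ Set.Ioo ρ₁ ρ₂)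
    (R : Multiset ℂ) (hR : ∀ α ∈ R, ‖α - ζ‖ ≤ ρ₁ ∨ ρ₂ ≤ ‖α - ζ‖) :
    ∃ G : ℝ → ℂ, SQ G ∧ (∀ θ, G θ ≠ 0) ∧ ∀ θ, (R.map fun α => (ζ + ρ * EE θ) - α).prod =
      EE θ ^ (open Classical in R.countP fun α => ‖α - ζ‖ ≤ ρ₁) * G θ := by
  classical
  have hρ0 : 0 < ρ := lt_of_le_of_lt h1 hρ.1
  have hρc : (ρ : ℂ) ≠ 0 := by exact_mod_cast hρ0.ne'
  induction R using Multiset.induction_on with
  | empty => exact ⟨fun _ => 1, SQ.const 1, fun _ => one_ne_zero, fun θ => by simp⟩
  | cons a R ih =>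
    obtain ⟨G, hG, hG0, hGe⟩ := ih (fun α hα => hR α (Multiset.mem_cons_of_mem hα))
    have hnorm : ∀ θ, ‖(ρ : ℂ) * EE θ‖ = ρ := by
      intro θ
      rw [norm_mul, EE_norm, mul_one, Complex.norm_real, Real.norm_of_nonneg hρ0.le]
    rcases hR a (Multiset.mem_cons_self a R) with ha | ha
    · -- inside
      set F : ℝ → ℂ := fun θ => 1 - (a - ζ) / (ρ * EE θ) with hF
      have hslit : ∀ θ, F θ ∈ Complex.slitPlane := by
        intro θ
        apply slit_of_norm_lt
        rw [norm_div, hnorm, div_lt_one hρ0]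
        exact lt_of_le_of_lt ha hρ.1
      have hFc : Continuous F := continuous_const.sub (continuous_const.div
        (continuous_const.mul EE_cont) fun θ => mul_ne_zero hρc (EE_ne θ))
      have hFp : ∀ θ, F (θ + 2 * Real.pi) = F θ := by
        intro θ; simp only [hF, EE_per]
      have hFS := SQ.slit hFc hFp hslit
      refine ⟨fun θ => (ρ * F θ) * G θ, ((SQ.const (ρ : ℂ)).mul hFS).mul hG, fun θ => ?_,
        fun θ => ?_⟩
      · exact mul_ne_zero (mul_ne_zero hρc (Complex.slitPlane_ne_zero (hslit θ))) (hG0 θ)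
      · rw [Multiset.map_cons, Multiset.prod_cons, hGe θ, Multiset.countP_cons_of_pos (p := fun α => ‖α - ζ‖ ≤ ρ₁) R ha,
          pow_succ]
        have : ζ + ρ * EE θ - a = EE θ * (ρ * F θ) := by
          simp only [hF]
          have hE := EE_ne θ
          field_simp
          ring
        rw [this]; ring
    · -- outside
      have hna : ¬ ‖a - ζ‖ ≤ ρ₁ := by
        have := hρ.1.trans hρ.2
        intro h; linarith
      have haz : a - ζ ≠ 0 := by
        intro h
        rw [h, norm_zero] at ha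
        have := hρ.2
        linarith
      set F : ℝ → ℂ := fun θ => 1 - (ρ * EE θ) / (a - ζ) with hF
      have hslit : ∀ θ, F θ ∈ Complex.slitPlane := by
        intro θ
        apply slit_of_norm_lt
        rw [norm_div, hnorm, div_lt_one (norm_pos_iff.2 haz)]
        exact lt_of_lt_of_le hρ.2 ha
      have hFc : Continuous F := continuous_const.sub
        ((continuous_const.mul EE_cont).div_const _)
      have hFp : ∀ θ, F (θ + 2 * Real.pi) = F θ := by
        intro θ; simp only [hF, EE_per]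
      have hFS := SQ.slit hFc hFp hslit
      refine ⟨fun θ => (-(a - ζ) * F θ) * G θ, ((SQ.const (-(a - ζ))).mul hFS).mul hG, fun θ => ?_,
        fun θ => ?_⟩
      · exact mul_ne_zero (mul_ne_zero (neg_ne_zero.2 haz)
          (Complex.slitPlane_ne_zero (hslit θ))) (hG0 θ)
      · rw [Multiset.map_cons, Multiset.prod_cons, hGe θ, Multiset.countP_cons_of_neg (p := fun α => ‖α - ζ‖ ≤ ρ₁) R hna]
        have : ζ + ρ * EE θ - a = -(a - ζ) * F θ := by
          simp only [hF]
          field_simp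
          ring
        rw [this]; ring

theorem a1 : A1Stmt := by
  intro T f w c hc hT ζ ρ₁ ρ₂ h1 h12 hodd hroots ρ hρ
  by_contra hcon
  push Not at hcon
  have hρ0 : 0 < ρ := lt_of_le_of_lt h1 hρ.1
  set x : ℝ → ℂ := fun θ => ζ + ρ * EE θ with hx
  have hxc : Continuous x := continuous_const.add (continuous_const.mul EE_cont)
  have hxp : ∀ θ, x (θ + 2 * Real.pi) = x θ := by intro θ; simp only [hx, EE_per]
  have hxn : ∀ θ, ‖x θ - ζ‖ = ρ := by
    intro θ
    simp only [hx, add_sub_cancel_left]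
    rw [norm_mul, EE_norm, mul_one, Complex.norm_real, Real.norm_of_nonneg hρ0.le]
  have hT1 : ∀ θ, 1 < ‖T.eval (x θ)‖ := fun θ => hcon (x θ) (hxn θ)
  have hf0 : f ≠ 0 := by
    rintro rfl
    simp [cnt] at hodd
  -- the quotient (T-1)/(T+1)
  have hTp : ∀ θ, T.eval (x θ) + 1 ≠ 0 := by
    intro θ h
    have h2 : T.eval (x θ) = -1 := eq_neg_of_add_eq_zero_left h
    have := hT1 θ
    rw [h2] at this
    simp at this
  have hTc : Continuous fun θ => T.eval (x θ) := T.continuous.comp hxc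
  have hq : SQ (fun θ => (T.eval (x θ) - 1) / (T.eval (x θ) + 1)) := by
    apply SQ.slit
    · exact (hTc.sub continuous_const).div (hTc.add continuous_const) hTp
    · intro θ; simp only [hxp]
    · intro θ
      left
      set z := T.eval (x θ) with hz
      have hz1 : 1 < ‖z‖ := hT1 θ
      have hzp : z + 1 ≠ 0 := hTp θ
      rw [Complex.div_re, ← add_div]
      apply div_pos
      · have e : (z - 1).re * (z + 1).re + (z - 1).im * (z + 1).im = Complex.normSq z - 1 := by
          simp only [Complex.sub_re, Complex.add_re, Complex.one_re, Complex.sub_im,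
            Complex.add_im, Complex.one_im, Complex.normSq_apply]
          ring
        rw [e, Complex.normSq_eq_norm_sq]
        nlinarith
      · exact Complex.normSq_pos.2 hzp
  have hs : SQ (fun θ => T.eval (x θ) ^ 2 - 1) := by
    have h2 : SQ (fun θ => (T.eval (x θ) + 1) ^ 2) :=
      ⟨fun θ => T.eval (x θ) + 1, hTc.add continuous_const, fun θ => by simp only [hxp],
        fun θ => rfl⟩
    have h3 := hq.mul h2
    have e : (fun θ => T.eval (x θ) ^ 2 - 1) = fun θ =>
        (T.eval (x θ) - 1) / (T.eval (x θ) + 1) * (T.eval (x θ) + 1) ^ 2 := by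
      funext θ
      have := hTp θ
      field_simp
      ring
    rw [e]; exact h3
  have hev : ∀ θ, T.eval (x θ) ^ 2 - 1 = c * f.eval (x θ) * w.eval (x θ) ^ 2 := by
    intro θ
    have := congrArg (Polynomial.eval (x θ)) hT
    simpa using this
  have hw : ∀ θ, w.eval (x θ) ≠ 0 := by
    intro θ h
    have h2 := hev θ
    rw [h] at h2
    have h3 : T.eval (x θ) ^ 2 = 1 := by
      have : T.eval (x θ) ^ 2 - 1 = 0 := by rw [h2]; ring
      exact sub_eq_zero.1 this
    have h4 : ‖T.eval (x θ)‖ ^ 2 = 1 := by rw [← norm_pow, h3, norm_one]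
    have := hT1 θ
    nlinarith
  -- f(x(θ)) has a continuous root
  have hfS : SQ (fun θ => f.eval (x θ)) := by
    have h2 : SQ (fun θ => c * w.eval (x θ) ^ 2) := by
      refine (SQ.const c).mul ?_
      exact ⟨fun θ => w.eval (x θ), w.continuous.comp hxc, fun θ => by simp only [hxp],
        fun θ => rfl⟩
    refine SQ.of_mul (G := fun θ => c * w.eval (x θ) ^ 2) ?_ h2
      (fun θ => mul_ne_zero hc (pow_ne_zero 2 (hw θ)))
    have e : (fun θ => f.eval (x θ) * (c * w.eval (x θ) ^ 2))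
        = fun θ => T.eval (x θ) ^ 2 - 1 := by
      funext θ
      rw [hev θ]; ring
    rw [e]; exact hs
  obtain ⟨G, hG, hG0, hGe⟩ := prod_roots ζ ρ₁ ρ₂ ρ h1 hρ f.roots hroots
  have hlc : f.leadingCoeff ≠ 0 := Polynomial.leadingCoeff_ne_zero.2 hf0
  have hfeval : ∀ θ, f.eval (x θ) = EE θ ^ (cnt norm f ζ ρ₁) * (f.leadingCoeff * G θ) := by
    intro θ
    have h2 := (IsAlgClosed.splits f).eq_prod_roots
    conv_lhs => rw [h2]
    rw [Polynomial.eval_mul, Polynomial.eval_C, Polynomial.eval_multiset_prod, Multiset.map_map]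
    have e : (f.roots.map (Polynomial.eval (x θ) ∘ fun a => X - C a))
        = f.roots.map fun α => (ζ + ρ * EE θ) - α := by
      apply Multiset.map_congr rfl
      intro a _
      simp [hx]
    rw [e, hGe θ]
    unfold cnt
    ring
  refine odd_false hodd ?_
  refine SQ.of_mul (G := fun θ => f.leadingCoeff * G θ) ?_ ((SQ.const _).mul hG)
    (fun θ => mul_ne_zero hlc (hG0 θ))
  have e : (fun θ => EE θ ^ (cnt norm f ζ ρ₁) * (f.leadingCoeff * G θ))
      = fun θ => f.eval (x θ) := by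
    funext θ; rw [hfeval θ]
  rw [e]; exact hfS

end BHT.H36
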